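import Pool.Agent.Helper764.Cop_final
import Pool.Agent.Helper764.Cop_int

/-!
# Copolymer at a selective interface: `log μ ∼ log f` at the localization transition

For every renewal law with tail exponent `α > 0`, every disorder law with mean `0`, variance `1`
and all exponential moments and every `λ > 0`, the decay rate `μ(λ,h)` (which governs the longest
excursion and the averaged correlation length) and the free energy `f(λ,h)` satisfy
`log μ(λ,h) / log f(λ,h) → 1` as `h ↗ h_c(λ)`.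
-/

set_option autoImplicit false
open MeasureTheory ProbabilityTheory Filter Topology
open scoped ENNReal NNReal

namespace Pool.Agent.Results.MP_0ce44f_pr.LogEquivalence

/-- law of one (gap, sign) pair: gap with law `κ`, sign uniform on `{false, true}` -/
noncomputable def stepLaw (κ : PMF ℕ) : Measure (ℕ × Bool) :=
  κ.toMeasure.prod (PMF.uniformOfFintype Bool).toMeasure

instance instStepLaw (κ : PMF ℕ) : IsProbabilityMeasure (stepLaw κ) := by
  unfold stepLaw; infer_instance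

/-- law of the i.i.d. sequence of (gap, sign) pairs -/
noncomputable def pathMeasure (κ : PMF ℕ) : Measure (ℕ → ℕ × Bool) :=
  Measure.infinitePi (fun _ : ℕ => stepLaw κ)

instance instPathMeasure (κ : PMF ℕ) : IsProbabilityMeasure (pathMeasure κ) := by
  unfold pathMeasure; infer_instance

/-- renewal points `τ_0 = 0`, `τ_j` = sum of the first `j` gaps -/
def tau (x : ℕ → ℕ × Bool) (j : ℕ) : ℕ := ∑ i ∈ Finset.range j, (x i).1

/-- `Δ_n` = sign of the excursion `(τ_j, τ_{j+1}]` containing `n` (as a real number 0 or 1) -/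
noncomputable def Delta (x : ℕ → ℕ × Bool) (n : ℕ) : ℝ :=
  ∑ j ∈ Finset.range n, if tau x j < n ∧ n ≤ tau x (j + 1) ∧ (x j).2 = true then 1 else 0

/-- the copolymer partition function `Z_{N,ω,λ,h}` -/
noncomputable def Z (κ : PMF ℕ) (lam h : ℝ) (N : ℕ) (ω : ℕ → ℝ) : ℝ :=
  ∫ x, Real.exp (-2 * lam * ∑ n ∈ Finset.Icc 1 N, Delta x n * (ω n + h)) ∂(pathMeasure κ)

/-- i.i.d. disorder with law `ν` (the coordinates `1, 2, ...` are used) -/
noncomputable def disorder (ν : Measure ℝ) [IsProbabilityMeasure ν] : Measure (ℕ → ℝ) :=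
  Measure.infinitePi (fun _ : ℕ => ν)

instance instDisorder (ν : Measure ℝ) [IsProbabilityMeasure ν] :
    IsProbabilityMeasure (disorder ν) := by
  unfold disorder; infer_instance

/-- `N⁻¹ E log Z_N` -/
noncomputable def feN (κ : PMF ℕ) (ν : Measure ℝ) [IsProbabilityMeasure ν] (lam h : ℝ) (N : ℕ) : ℝ :=
  (N : ℝ)⁻¹ * ∫ ω, Real.log (Z κ lam h N ω) ∂(disorder ν)

/-- the free energy `f(λ,h)` -/
noncomputable def freeEnergy (κ : PMF ℕ) (ν : Measure ℝ) [IsProbabilityMeasure ν] (lam h : ℝ) : ℝ :=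
  limUnder atTop (feN κ ν lam h)

/-- `-N⁻¹ log E[(1 + exp(-2λ Σ_{n≤N} (ω_n+h))) / Z_N]` -/
noncomputable def muN (κ : PMF ℕ) (ν : Measure ℝ) [IsProbabilityMeasure ν] (lam h : ℝ) (N : ℕ) : ℝ :=
  -((N : ℝ)⁻¹ * Real.log (∫ ω, (1 + Real.exp (-2 * lam * ∑ n ∈ Finset.Icc 1 N, (ω n + h)))
    * (Z κ lam h N ω)⁻¹ ∂(disorder ν)))

/-- the decay rate `μ(λ,h)` -/
noncomputable def mu (κ : PMF ℕ) (ν : Measure ℝ) [IsProbabilityMeasure ν] (lam h : ℝ) : ℝ :=
  limUnder atTop (muN κ ν lam h)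

/-- **Giacomin–Toninelli question on `μ` versus the free energy.**  For every gap law `κ` on the
positive integers with `n^{1+α} κ(n) → cK > 0` (some `α > 0`), every disorder law `ν` with mean `0`,
variance `1` and all exponential moments, and every `λ > 0`:

* `log Z_N` is integrable for large `N`, and the limits defining the free energy `f(λ,h)` and the decay rate `μ(λ,h)` exist for all `h ≥ 0`;
* there is `hc ∈ (0,∞)` such that for `h ≥ 0`: `f(λ,h) > 0` iff `h < hc`;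
* for `h < hc` close to `hc` one has `0 < μ(λ,h) ≤ f(λ,h)`;
* `log μ(λ,h) / log f(λ,h) → 1` as `h ↗ hc`. -/
theorem result (κ : PMF ℕ) (hκ0 : κ 0 = 0) (α cK : ℝ) (hα : 0 < α) (hcK : 0 < cK)
    (htail : Tendsto (fun n : ℕ => (n : ℝ) ^ (1 + α) * (κ n).toReal) atTop (𝓝 cK))
    (ν : Measure ℝ) [IsProbabilityMeasure ν]
    (hmean : ∫ x, x ∂ν = 0) (hvar : ∫ x, x ^ 2 ∂ν = 1)
    (hexp : ∀ t : ℝ, Integrable (fun x => Real.exp (t * x)) ν)
    (lam : ℝ) (hlam : 0 < lam) :
    (∀ h, 0 ≤ h → ∀ᶠ N in atTop, Integrable (fun ω => Real.log (Z κ lam h N ω)) (disorder ν)) ∧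
    (∀ h, 0 ≤ h → Tendsto (feN κ ν lam h) atTop (𝓝 (freeEnergy κ ν lam h))) ∧
    (∀ h, 0 ≤ h → Tendsto (muN κ ν lam h) atTop (𝓝 (mu κ ν lam h))) ∧
    ∃ hc : ℝ, 0 < hc ∧ (∀ h, 0 ≤ h → (0 < freeEnergy κ ν lam h ↔ h < hc)) ∧
      (∀ᶠ h in 𝓝[<] hc, 0 < mu κ ν lam h ∧ mu κ ν lam h ≤ freeEnergy κ ν lam h) ∧
      Tendsto (fun h => Real.log (mu κ ν lam h) / Real.log (freeEnergy κ ν lam h))
        (𝓝[<] hc) (𝓝 1) := by
  obtain ⟨c0, n0, hK⟩ := Cop764.M_K.J_K
    ⟨κ, hκ0, α, cK, hα, hcK, htail, ν, inferInstance, hmean, hvar, hexp, lam, hlam⟩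
  have hint := Cop764.M_int.J_int
    ⟨κ, hκ0, α, cK, hα, hcK, htail, ν, inferInstance, hmean, hvar, hexp, lam, hlam⟩ c0 n0 hK
  have := Cop764.M_final.J_final
    ⟨κ, hκ0, α, cK, hα, hcK, htail, ν, inferInstance, hmean, hvar, hexp, lam, hlam⟩
  exact ⟨fun h hh => Filter.eventually_atTop.2 ⟨n0, fun N hN => (hint h hh).2.2 N hN⟩, this⟩

end Pool.Agent.Results.MP_0ce44f_pr.LogEquivalence
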